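import Pool.Agent.R520.Lap

set_option autoImplicit false

/-!
# The Laplacian spread of a digraph of order `n` is not bounded by `n + C`

For every `N ≥ 2` there is a digraph of order `n = 4 N` with Laplacian spread at least `57/56 * n`:
its vertices are divided into four classes of `N` vertices; the vertices of the first class send arcs to
all other vertices, those of the second class to all vertices of the third class, and there are no other
arcs.
-/

namespace Pool.Agent.Results.MP_df5386_co.SpreadAboveOrder

open Finset Pool.Agent.R520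

/-- the arcs of the example -/
def arcs (N : ℕ) (u v : Fin 4 × Fin N) : Prop := (u.1 = 0 ∧ u ≠ v) ∨ (u.1 = 1 ∧ v.1 = 2)

instance (N : ℕ) : DecidableRel (arcs N) := fun u v => by unfold arcs; infer_instance

lemma outdeg_eq (N : ℕ) (u : Fin 4 × Fin N) :
    (outdeg (arcs N) u : ℝ) = if u.1 = 0 then 4 * (N : ℝ) - 1 else if u.1 = 1 then (N : ℝ) else 0 := by
  classical
  unfold outdeg
  have hN : 1 ≤ N := by
    have := u.2.pos
    omega
  rcases u with ⟨a, b⟩
  by_cases h0 : a = 0
  · subst h0
    have : (univ.filter fun v => arcs N (0, b) v) = univ.erase (0, b) := by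
      ext v
      simp [arcs, eq_comm]
    rw [filter_congr_decidable, this, card_erase_of_mem (mem_univ _), card_univ, Fintype.card_prod, Fintype.card_fin,
      Fintype.card_fin, if_pos rfl]
    push_cast [show 1 ≤ 4 * N by omega]
    ring
  · by_cases h1 : a = 1
    · subst h1
      have : (univ.filter fun v => arcs N (1, b) v) = ({2} : Finset (Fin 4)) ×ˢ (univ : Finset (Fin N)) := by
        ext v
        rcases v with ⟨c, d⟩
        simp [arcs, eq_comm]
      rw [filter_congr_decidable, this, card_product, card_singleton, card_univ, Fintype.card_fin]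
      simp
    · have : (univ.filter fun v => arcs N (a, b) v) = ∅ := by
        apply filter_eq_empty_iff.2
        intro v _
        simp [arcs, h0, h1]
      rw [filter_congr_decidable, this]
      simp [h0, h1]

/-- The vector which proves the upper bound for `α`. -/
noncomputable def vec (N : ℕ) (u : Fin 4 × Fin N) : ℝ :=
  if u.1 = 0 then 0 else if u.1 = 1 then 1 else if u.1 = 2 then 2 else -3

lemma sum_vec (N : ℕ) : ∑ u, vec N u = 0 := by
  rw [Fintype.sum_prod_type]
  simp [vec, Fin.sum_univ_four]
  ring

lemma sum_vec_sq (N : ℕ) : ∑ u, vec N u ^ 2 = 14 * N := by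
  rw [Fintype.sum_prod_type]
  simp [vec, Fin.sum_univ_four]
  ring

lemma qf_vec (N : ℕ) : qf (arcs N) (vec N) = -(N : ℝ) ^ 2 := by
  classical
  rw [qf_eq]
  simp only [outdeg_eq]
  rw [Fintype.sum_prod_type, Fintype.sum_prod_type]
  simp only [Fintype.sum_prod_type]
  simp [vec, Fin.sum_univ_four, arcs]
  ring

lemma alpha_bound (N : ℕ) (hN : 2 ≤ N) : alpha (arcs N) ≤ -(N : ℝ) / 14 := by
  have h := alpha_le (arcs N) (vec N) (sum_vec N)
  rw [sum_vec_sq, qf_vec] at h
  have hN' : (0 : ℝ) < N := by
    have : 0 < N := by omega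
    exact_mod_cast this
  have h2 : alpha (arcs N) * 14 ≤ -(N : ℝ) := by
    by_contra hc
    push Not at hc
    have := mul_lt_mul_of_pos_right hc hN'
    nlinarith
  linarith

lemma beta_bound (N : ℕ) (hN : 2 ≤ N) : 4 * (N : ℝ) ≤ beta (arcs N) := by
  classical
  set p : Fin 4 × Fin N := (0, ⟨0, by omega⟩) with hp
  set r : Fin 4 × Fin N := (0, ⟨1, by omega⟩) with hr
  have hpr : p ≠ r := by
    rw [hp, hr]
    simp
  set x : Fin 4 × Fin N → ℝ := fun u => if u = p then 1 else if u = r then -1 else 0 with hx
  have e1 : ∀ f : Fin 4 × Fin N → ℝ, ∑ u, f u * x u = f p - f r := by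
    intro f
    have : ∀ u, f u * x u = (if u = p then f u else 0) - (if u = r then f u else 0) := by
      intro u
      simp only [hx]
      by_cases h1 : u = p
      · subst h1
        rw [if_pos rfl, if_pos rfl, if_neg hpr]
        ring
      · rw [if_neg h1, if_neg h1]
        split_ifs <;> ring
    simp only [this]
    rw [Finset.sum_sub_distrib, Finset.sum_ite_eq', Finset.sum_ite_eq', if_pos (mem_univ _), if_pos (mem_univ _)]
  have h0 : ∑ u, x u = 0 := by
    have := e1 (fun _ => 1)
    simpa using this
  have hxp : x p = 1 := by simp [hx]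
  have hxr : x r = -1 := by simp [hx, hpr.symm]
  have h1 : ∑ u, x u ^ 2 = 2 := by
    have := e1 x
    rw [hxp, hxr] at this
    rw [show (2 : ℝ) = 1 - -1 by norm_num, ← this]
    apply Finset.sum_congr rfl
    intro u _
    ring
  have h2 : qf (arcs N) x = 8 * N := by
    rw [qf_eq]
    have a1 : ∑ i, (outdeg (arcs N) i : ℝ) * x i ^ 2 = 2 * (4 * N - 1) := by
      have := e1 (fun u => (outdeg (arcs N) u : ℝ) * x u)
      rw [hxp, hxr, outdeg_eq, outdeg_eq, if_pos (show p.1 = 0 from rfl)] at this
      rw [show 2 * (4 * (N : ℝ) - 1) = (4 * N - 1) * 1 - (4 * N - 1) * -1 by ring, ← this]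
      apply Finset.sum_congr rfl
      intro u _
      ring
    have a2 : ∀ i, ∑ j, (if arcs N i j then x i * x j else 0) =
        ((if arcs N i p then 1 else 0) - (if arcs N i r then 1 else 0)) * x i := by
      intro i
      have := e1 (fun j => if arcs N i j then 1 else 0)
      rw [← this, Finset.sum_mul]
      apply Finset.sum_congr rfl
      intro j _
      split_ifs <;> ring
    have a3 : ∑ i, ∑ j, (if arcs N i j then x i * x j else 0) = -2 := by
      simp only [a2]
      rw [e1]
      have b1 : ¬ arcs N p p := by simp [arcs, hp]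
      have b2 : arcs N p r := by left; exact ⟨rfl, hpr⟩
      have b3 : arcs N r p := by left; exact ⟨rfl, hpr.symm⟩
      have b4 : ¬ arcs N r r := by simp [arcs, hr]
      rw [if_neg b1, if_pos b2, if_pos b3, if_neg b4]
      norm_num
    rw [a1]
    have a3' : ∑ i, ∑ j, (@ite ℝ (arcs N i j) (Classical.propDecidable _) (x i * x j) 0) = -2 := by
      rw [← a3]
      apply Finset.sum_congr rfl
      intro i _
      apply Finset.sum_congr rfl
      intro j _
      congr
    rw [a3']
    ring
  have h := le_beta (arcs N) x h0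
  rw [h1, h2] at h
  linarith

/-- There is a digraph of order `n`, without loops, whose Laplacian spread is at least `57/56 * n`, for
every `n ≥ 8` divisible by `4`; hence there is no constant `C` such that the Laplacian spread of every
digraph of every order `n ≥ 2` is at most `n + C`. -/
theorem result :
    (∀ N : ℕ, 2 ≤ N → ∃ (V : Type) (_ : Fintype V) (_ : DecidableEq V) (Γ : V → V → Prop),
      Fintype.card V = 4 * N ∧ (∀ i, ¬ Γ i i) ∧ 57 / 56 * ((4 * N : ℕ) : ℝ) ≤ spread Γ) ∧
    ¬ ∃ C : ℝ, ∀ (V : Type) (_ : Fintype V) (_ : DecidableEq V) (Γ : V → V → Prop),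
      2 ≤ Fintype.card V → (∀ i, ¬ Γ i i) → spread Γ ≤ Fintype.card V + C := by
  have key : ∀ N : ℕ, 2 ≤ N → ∃ (V : Type) (_ : Fintype V) (_ : DecidableEq V) (Γ : V → V → Prop),
      Fintype.card V = 4 * N ∧ (∀ i, ¬ Γ i i) ∧ 57 / 56 * ((4 * N : ℕ) : ℝ) ≤ spread Γ := by
    intro N hN
    refine ⟨Fin 4 × Fin N, inferInstance, inferInstance, arcs N, by simp, ?_, ?_⟩
    · rintro ⟨a, b⟩ h
      rcases h with ⟨-, h⟩ | ⟨h1, h2⟩
      · exact h rfl
      · change a = 1 at h1
        change a = 2 at h2
        rw [h1] at h2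
        exact absurd h2 (by decide)
    · unfold spread
      have h1 := alpha_bound N hN
      have h2 := beta_bound N hN
      push_cast
      linarith
  refine ⟨key, ?_⟩
  rintro ⟨C, hC⟩
  obtain ⟨N, hN⟩ := exists_nat_gt (14 * C)
  obtain ⟨V, i1, i2, Γ, hc, hl, hs⟩ := key (max N 2) (le_max_right _ _)
  have := hC V i1 i2 Γ (by rw [hc]; have := le_max_right N 2; omega) hl
  rw [hc] at this
  have h3 : (N : ℝ) ≤ ((max N 2 : ℕ) : ℝ) := by exact_mod_cast le_max_left N 2
  push_cast at this hs h3 ⊢
  linarith

end Pool.Agent.Results.MP_df5386_co.SpreadAboveOrder
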